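import Pool.Agent.H49.CZ.Stm

set_option autoImplicit false

open MvPolynomial Module Pool.Agent.H77.TF Pool.Agent.H77.GR

namespace Pool.Agent.H56.CZ

/-- Elements with an inverse in the subring are not mapped to zero. -/
theorem map_ne_zero {K : Type} [Field K] (R : Subring K) {k : Type} [Field k] (φ : R →+* k)
    (x : R) (hx : (x : K) ≠ 0) (hi : (x : K)⁻¹ ∈ R) : φ x ≠ 0 := by
  intro h
  have h1 : x * ⟨(x : K)⁻¹, hi⟩ = 1 := by
    apply Subtype.ext
    show (x : K) * (x : K)⁻¹ = 1
    exact mul_inv_cancel₀ hx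
  have h2 := congrArg φ h1
  rw [map_mul, h, zero_mul, map_one] at h2
  exact zero_ne_one h2

theorem t_BIG : Pool.Agent.H49.CZ.S_BIG := by
  classical
  intro K _ _ a b ha
  obtain ⟨S, hS⟩ := Infinite.exists_subset_card_eq K (b + 1)
  refine ⟨(Finset.range a).image (fun j : ℕ => ((j : K))⁻¹) ∪ S ∪
    (S ×ˢ S).image (fun p => (p.1 - p.2)⁻¹), ?_⟩
  intro R hR k _ _ φ
  have hR' : ∀ x ∈ (Finset.range a).image (fun j : ℕ => ((j : K))⁻¹) ∪ S ∪
    (S ×ˢ S).image (fun p => (p.1 - p.2)⁻¹), x ∈ R := fun x hx => hR hx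
  refine ⟨?_, ?_⟩
  · intro j hj hja
    have h1 : ((j : K))⁻¹ ∈ R := by
      apply hR'
      rw [Finset.mem_union, Finset.mem_union]
      exact Or.inl (Or.inl (Finset.mem_image_of_mem _ (Finset.mem_range.2 hja)))
    have h2 := map_ne_zero R φ (j : R) (by simpa using ha j hj hja) (by simpa using h1)
    simpa using h2
  · have hSR : ∀ s ∈ S, s ∈ R := by
      intro s hs
      apply hR'
      rw [Finset.mem_union, Finset.mem_union]
      exact Or.inl (Or.inr hs)
    let f : S → k := fun s => φ ⟨s, hSR s s.2⟩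
    have hf : Function.Injective f := by
      intro s t hst
      by_contra hne
      have hne' : (s : K) ≠ t := fun h => hne (Subtype.ext h)
      have h1 : ((s : K) - t)⁻¹ ∈ R := by
        apply hR'
        rw [Finset.mem_union]
        refine Or.inr (Finset.mem_image.2 ⟨((s : K), (t : K)), ?_, rfl⟩)
        exact Finset.mem_product.2 ⟨s.2, t.2⟩
      have h2 := map_ne_zero R φ (⟨s, hSR s s.2⟩ - ⟨t, hSR t t.2⟩) (sub_ne_zero.2 hne') h1
      apply h2
      rw [map_sub]
      exact sub_eq_zero.2 hst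
    have h3 := Fintype.card_le_of_injective f hf
    rw [Fintype.card_coe, hS] at h3
    omega

end Pool.Agent.H56.CZ
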